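import Pool.Agent.W355.UN.Stm

set_option autoImplicit false

open Complex Filter Topology
open scoped ComplexConjugate

namespace Pool.Agent.W12.UN

open Pool.Agent.W355.UN

lemma growth (a b : ℝ) (hab : a < b) (A ρ : ℝ) :
    ∃ c K : ℝ, 0 < c ∧ c < Real.pi / (b - a) ∧ 0 ≤ K ∧ ∀ z : ℂ, a < z.re → z.re < b →
      A * (1 + ‖z‖) ^ ρ ≤ K * Real.exp (c * |z.im|) := by
  have hba : 0 < b - a := sub_pos.2 hab
  set c : ℝ := Real.pi / (2 * (b - a)) with hc
  have hc0 : 0 < c := by positivity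
  set R : ℝ := |a| + |b| with hR
  set k : ℕ := ⌈|ρ|⌉₊ with hk
  set K : ℝ := |A| * ((k.factorial : ℝ) / c ^ k * Real.exp (c * (1 + R))) with hK
  have hK0 : 0 ≤ K := by positivity
  refine ⟨c, K, hc0, ?_, hK0, ?_⟩
  · rw [hc]
    exact div_lt_div_of_pos_left Real.pi_pos hba (by linarith)
  · intro z hz1 hz2
    have hre : |z.re| ≤ R := by
      rw [hR, abs_le]
      have h1 := neg_abs_le a
      have h2 := le_abs_self b
      have h3 := abs_nonneg a
      have h4 := abs_nonneg b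
      constructor <;> linarith
    have hnorm : ‖z‖ ≤ R + |z.im| := (Complex.norm_le_abs_re_add_abs_im z).trans (by linarith)
    have h1 : (1 : ℝ) ≤ 1 + ‖z‖ := by linarith [norm_nonneg z]
    have h2 : (1 + ‖z‖) ^ ρ ≤ (1 + ‖z‖) ^ k := by
      rw [← Real.rpow_natCast]
      exact Real.rpow_le_rpow_of_exponent_le h1 ((le_abs_self ρ).trans (Nat.le_ceil _))
    have h3 : (1 + ‖z‖) ^ k ≤ (1 + R + |z.im|) ^ k :=
      pow_le_pow_left₀ (by linarith) (by linarith) k
    have hy0 : 0 ≤ 1 + R + |z.im| := by positivity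
    have h4 : (1 + R + |z.im|) ^ k ≤ (k.factorial : ℝ) / c ^ k * Real.exp (c * (1 + R)) *
        Real.exp (c * |z.im|) := by
      have h5 := Real.pow_div_factorial_le_exp (c * (1 + R + |z.im|)) (by positivity) k
      have h6 : Real.exp (c * (1 + R + |z.im|)) = Real.exp (c * (1 + R)) *
          Real.exp (c * |z.im|) := by
        rw [← Real.exp_add]
        congr 1
        ring
      rw [h6, mul_pow, div_le_iff₀ (by positivity)] at h5
      have hck : 0 < c ^ k := pow_pos hc0 k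
      have h7 : (k.factorial : ℝ) / c ^ k * Real.exp (c * (1 + R)) * Real.exp (c * |z.im|) =
          (Real.exp (c * (1 + R)) * Real.exp (c * |z.im|) * (k.factorial : ℝ)) / c ^ k := by
        field_simp
      rw [h7, le_div_iff₀ hck]
      linarith
    have h0 : 0 ≤ (1 + ‖z‖) ^ ρ := Real.rpow_nonneg (by linarith) _
    calc A * (1 + ‖z‖) ^ ρ ≤ |A| * (1 + ‖z‖) ^ ρ :=
          mul_le_mul_of_nonneg_right (le_abs_self A) h0
      _ ≤ |A| * ((k.factorial : ℝ) / c ^ k * Real.exp (c * (1 + R)) * Real.exp (c * |z.im|)) :=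
          mul_le_mul_of_nonneg_left (h2.trans (h3.trans h4)) (abs_nonneg A)
      _ = K * Real.exp (c * |z.im|) := by
          rw [hK]
          ring

theorem slow : S_SLOW := by
  intro F hF ⟨A, ρ, hord⟩ ⟨ε, hε, hfe⟩ hR δ hδ
  obtain ⟨K0, hK0, h0⟩ := hR (δ / 4) (by positivity)
  set K1 : ℝ := K0 * Real.exp (δ / 2) with hK1
  have hK1p : 0 < K1 := by positivity
  have hn : ∀ z : ℂ, ‖z‖ ^ 2 = z.re ^ 2 + z.im ^ 2 := by
    intro z
    rw [Complex.sq_norm, Complex.normSq_apply]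
    ring
  have hre : ∀ z : ℂ, (((δ / 2 : ℝ) : ℂ) * z ^ 2).re = δ / 2 * (z.re ^ 2 - z.im ^ 2) := by
    intro z
    rw [Complex.re_ofReal_mul]
    congr 1
    simp [sq, Complex.mul_re]
  have hright : ∀ s : ℂ, 2 ≤ s.re → ‖F s‖ ≤ K1 * Real.exp (δ / 2 * ‖s‖ ^ 2) := by
    intro s hs
    refine (h0 s hs).trans ?_
    rw [hK1, mul_assoc, ← Real.exp_add]
    apply mul_le_mul_of_nonneg_left _ hK0.le
    apply Real.exp_le_exp.mpr
    have := sq_nonneg ‖s‖
    nlinarith
  have hleft : ∀ s : ℂ, s.re ≤ -1 → ‖F s‖ ≤ K1 * Real.exp (δ / 2 * ‖s‖ ^ 2) := by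
    intro s hs
    have h1 : ‖F s‖ = ‖F (1 - conj s)‖ := by
      rw [hfe s, norm_mul, hε, one_mul, Complex.norm_conj]
    have h2 : 2 ≤ (1 - conj s).re := by
      rw [Complex.sub_re, Complex.one_re, Complex.conj_re]
      linarith
    rw [h1]
    refine (h0 _ h2).trans ?_
    rw [hK1, mul_assoc, ← Real.exp_add]
    apply mul_le_mul_of_nonneg_left _ hK0.le
    apply Real.exp_le_exp.mpr
    have h3 : ‖1 - conj s‖ ≤ 1 + ‖s‖ := by
      refine (norm_sub_le _ _).trans ?_
      rw [norm_one, Complex.norm_conj]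
    have h4 : ‖1 - conj s‖ ^ 2 ≤ 2 + 2 * ‖s‖ ^ 2 := by
      have := norm_nonneg (1 - conj s)
      nlinarith [sq_nonneg (1 - ‖s‖)]
    nlinarith
  have hedge : ∀ z : ℂ, z.re ^ 2 ≤ 4 → ‖F z‖ ≤ K1 * Real.exp (δ / 2 * ‖z‖ ^ 2) →
      ‖F z * cexp (((δ / 2 : ℝ) : ℂ) * z ^ 2)‖ ≤ K1 * Real.exp (4 * δ) := by
    intro z hz hF1
    rw [norm_mul, Complex.norm_exp, hre]
    calc ‖F z‖ * Real.exp (δ / 2 * (z.re ^ 2 - z.im ^ 2))
        ≤ K1 * Real.exp (δ / 2 * ‖z‖ ^ 2) * Real.exp (δ / 2 * (z.re ^ 2 - z.im ^ 2)) :=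
          mul_le_mul_of_nonneg_right hF1 (Real.exp_pos _).le
      _ = K1 * Real.exp (δ * z.re ^ 2) := by
          rw [mul_assoc, ← Real.exp_add, hn]
          congr 2
          ring
      _ ≤ _ := by
          apply mul_le_mul_of_nonneg_left _ hK1p.le
          apply Real.exp_le_exp.mpr
          nlinarith
  obtain ⟨c, K, hc0, hc1, hK, hg⟩ := growth (-1) 2 (by norm_num) A ρ
  have hstrip : ∀ u : ℂ, -1 ≤ u.re → u.re ≤ 2 → ‖F u‖ ≤ K1 * Real.exp (4 * δ) *
      Real.exp (δ * ‖u‖ ^ 2) := by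
    intro u hu1 hu2
    have hPL := PhragmenLindelof.vertical_strip (a := -1) (b := 2)
      (f := fun z => F z * cexp (((δ / 2 : ℝ) : ℂ) * z ^ 2)) (C := K1 * Real.exp (4 * δ)) (z := u)
      ?_ ?_ ?_ ?_ hu1 hu2
    · rw [norm_mul, Complex.norm_exp, hre] at hPL
      calc ‖F u‖ = ‖F u‖ * Real.exp (δ / 2 * (u.re ^ 2 - u.im ^ 2)) *
            Real.exp (-(δ / 2 * (u.re ^ 2 - u.im ^ 2))) := by
            rw [mul_assoc, ← Real.exp_add]; simp
        _ ≤ K1 * Real.exp (4 * δ) * Real.exp (-(δ / 2 * (u.re ^ 2 - u.im ^ 2))) :=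
            mul_le_mul_of_nonneg_right hPL (Real.exp_pos _).le
        _ ≤ _ := by
            apply mul_le_mul_of_nonneg_left _ (by positivity)
            apply Real.exp_le_exp.mpr
            rw [hn]
            have h1 := mul_nonneg hδ.le (sq_nonneg u.re)
            have h2 := mul_nonneg hδ.le (sq_nonneg u.im)
            nlinarith
    · exact (hF.mul (by fun_prop)).diffContOnCl
    · refine ⟨c, hc1, K, ?_⟩
      refine Asymptotics.IsBigO.of_bound (Real.exp (2 * δ)) ?_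
      refine Filter.mem_inf_of_right ?_
      rw [Filter.mem_principal]
      intro z hz
      have hz1 : -1 < z.re := hz.1
      have hz2 : z.re < 2 := hz.2
      rw [Set.mem_ofPred_eq, Real.norm_of_nonneg (Real.exp_pos _).le, norm_mul, Complex.norm_exp, hre]
      rw [mul_comm]
      apply mul_le_mul
      · apply Real.exp_le_exp.mpr
        have h1 := mul_nonneg hδ.le (sq_nonneg z.im)
        have h2 : z.re ^ 2 ≤ 4 := by nlinarith
        nlinarith
      · exact (hord z).trans (Real.exp_le_exp.2 (hg z hz1 hz2))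
      · exact norm_nonneg _
      · exact (Real.exp_pos _).le
    · intro z hz
      exact hedge z (by rw [hz]; norm_num) (hleft z hz.le)
    · intro z hz
      exact hedge z (by rw [hz]; norm_num) (hright z hz.ge)
  refine ⟨K1 * Real.exp (4 * δ), by positivity, fun s => ?_⟩
  have hside : ‖F s‖ ≤ K1 * Real.exp (δ / 2 * ‖s‖ ^ 2) →
      ‖F s‖ ≤ K1 * Real.exp (4 * δ) * Real.exp (δ * ‖s‖ ^ 2) := by
    intro h
    refine h.trans ?_
    rw [mul_assoc K1, ← Real.exp_add]
    apply mul_le_mul_of_nonneg_left _ hK1p.le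
    apply Real.exp_le_exp.mpr
    have := mul_nonneg hδ.le (sq_nonneg ‖s‖)
    linarith
  by_cases h1 : s.re ≤ -1
  · exact hside (hleft s h1)
  · by_cases h2 : 2 ≤ s.re
    · exact hside (hright s h2)
    · push Not at h1 h2
      exact hstrip s h1.le h2.le

end Pool.Agent.W12.UN
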